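import Mathlib

/-!
# A scalar inequality
-/

set_option autoImplicit false

namespace Pool.Agent.Helper72.SH

open Real

lemma exp_sub_ge_neg {y : ℝ} (h : y ≤ -1) : -y / 3 ≤ exp y - 1 - y := by
  -- `-1 - y + y/3 + exp y ≥ 0`
  have h1 : exp (-1 : ℝ) * (y + 2) ≤ exp y := by
    have h2 : (y + 1) + 1 ≤ exp (y + 1) := add_one_le_exp _
    have h3 : exp y = exp (-1) * exp (y + 1) := by
      rw [← exp_add]; congr 1; ring
    rw [h3]
    apply mul_le_mul_of_nonneg_left _ (exp_pos _).le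
    linarith
  have h4 : (1 : ℝ) / 3 ≤ exp (-1) := by
    have := exp_one_lt_d9
    rw [exp_neg, one_div]
    apply inv_anti₀ (exp_pos 1)
    linarith
  have h5 : exp (-1 : ℝ) ≤ 2 / 3 := by
    have := exp_one_gt_d9
    rw [exp_neg]
    rw [inv_le_comm₀ (exp_pos 1) (by norm_num)]
    linarith
  by_cases hy : -2 ≤ y
  · have h6 : (1 : ℝ) / 3 * (y + 2) ≤ exp (-1) * (y + 2) :=
      mul_le_mul_of_nonneg_right h4 (by linarith)
    linarith
  · have h7 := exp_pos y
    linarith

lemma exp_sub_ge_pos {y : ℝ} (h : 1 ≤ y) : y / 3 ≤ exp y - 1 - y := by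
  have h1 : 1 + y + y ^ 2 / 2 ≤ exp y := by
    have := quadratic_le_exp_of_nonneg (show 0 ≤ y by linarith)
    linarith
  nlinarith

lemma exp_sub_ge (y : ℝ) (h : 1 ≤ |y|) : |y| / 3 ≤ exp y - 1 - y := by
  rcases le_total 0 y with h0 | h0
  · rw [abs_of_nonneg h0] at h ⊢
    exact exp_sub_ge_pos h
  · rw [abs_of_nonpos h0] at h ⊢
    exact exp_sub_ge_neg (by linarith)

/-- the scalar inequality of the first moment -/
theorem scal (u v kap : ℝ) (h0 : 0 ≤ kap) (h6 : kap ≤ 1 / 6) :
    1 - u + v - sqrt kap - 4 * kap * |v| ≤ exp (-u - kap * |u| + v) := by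
  set y : ℝ := -u - kap * |u| + v with hy
  have hu : |u| ≤ 2 * |y| + 2 * |v| := by
    have hw : 0 ≤ kap * |u| := mul_nonneg h0 (abs_nonneg u)
    have h5 : kap * |u| ≤ 1 / 6 * |u| := mul_le_mul_of_nonneg_right h6 (abs_nonneg u)
    have h7 := abs_nonneg u
    have h8 := abs_nonneg y
    have h9 := abs_nonneg v
    have e1 := le_abs_self y
    have e2 := neg_abs_le y
    have e3 := le_abs_self v
    have e4 := neg_abs_le v
    have h1 : u = -y - kap * |u| + v := by rw [hy]; ring
    rcases abs_cases u with ⟨h2, -⟩ | ⟨h2, -⟩ <;> linarith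
  have hk : kap * |u| ≤ 2 * kap * |y| + 2 * kap * |v| := by
    have := mul_le_mul_of_nonneg_left hu h0
    linarith
  have hs0 : 0 ≤ sqrt kap := sqrt_nonneg _
  have hs : 2 * kap ≤ sqrt kap := by
    have h1 : sqrt kap * sqrt kap = kap := mul_self_sqrt h0
    have h2 : sqrt kap ≤ 1 / 2 := by
      rw [sqrt_le_left (by norm_num)]
      linarith
    nlinarith
  have hkv : 0 ≤ kap * |v| := mul_nonneg h0 (abs_nonneg v)
  have h1 : 1 - u + v = 1 + y + kap * |u| := by rw [hy]; ring
  rw [h1]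
  by_cases h : 1 ≤ |y|
  · have h2 := exp_sub_ge y h
    have h3 : 2 * kap * |y| ≤ |y| / 3 := by
      have := mul_le_mul_of_nonneg_right h6 (abs_nonneg y)
      linarith
    linarith
  · push Not at h
    have h2 := add_one_le_exp y
    have h3 : 2 * kap * |y| ≤ 2 * kap := by
      have := mul_le_mul_of_nonneg_left h.le (show 0 ≤ 2 * kap by linarith)
      linarith
    linarith

end Pool.Agent.Helper72.SH
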