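import Pool.Agent.Helper24.Sharp.Base
import Pool.Agent.Helper89.SH.Stmt

/-!
# From the cells of `Helper89.SH` to the cells of `Helper24.Sharp`
-/

set_option autoImplicit false

namespace Pool.Agent.Helper72.SH

open Finset MeasureTheory Pool.Agent.Helper43.Copula Pool.Agent.Helper3.Cop
  Pool.Agent.Helper45.CR

variable {n : ℕ}

lemma ratio_mono (e q s : ℝ) (he : 0 < e) (hq : 0 ≤ q) (hqs : q ≤ s) :
    q / max q e ≤ s / max s e := by
  have h1 : 0 < max q e := lt_max_of_lt_right he
  have h2 : 0 < max s e := lt_max_of_lt_right he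
  rw [div_le_div_iff₀ h1 h2]
  rcases le_total s e with h | h
  · rw [max_eq_right h, max_eq_right (le_trans hqs h)]
    exact mul_le_mul_of_nonneg_right hqs he.le
  · rw [max_eq_left h, mul_comm]
    exact mul_le_mul_of_nonneg_left (le_max_left _ _) (le_trans hq hqs)

lemma va_mono (e : ℝ) (he : 0 < e) (q s : Fin n → ℝ) (hq : ∀ k, 0 ≤ q k)
    (hqs : ∀ k, q k ≤ s k) :
    (∏ k, q k) * ∑ k, 1 / max (q k) e ≤ (∏ k, s k) * ∑ k, 1 / max (s k) e := by
  rw [Finset.mul_sum, Finset.mul_sum]
  refine Finset.sum_le_sum fun k _ => ?_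
  have h1 : ∀ f : Fin n → ℝ, (∏ k, f k) * (1 / max (f k) e) =
      (∏ i ∈ Finset.univ.erase k, f i) * (f k / max (f k) e) := by
    intro f
    rw [← Finset.prod_erase_mul _ _ (Finset.mem_univ k)]
    ring
  rw [h1 q, h1 s]
  apply mul_le_mul
  · exact Finset.prod_le_prod (fun i _ => hq i) (fun i _ => hqs i)
  · exact ratio_mono e _ _ he (hq k) (hqs k)
  · have h2 : 0 < max (q k) e := lt_max_of_lt_right he
    exact div_nonneg (hq k) h2.le
  · exact Finset.prod_nonneg fun i _ => le_trans (hq i) (hqs i)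

/-- the first moment over the good cells is at most the one over all cells -/
theorem bridge {C : (Fin n → ℝ) → ℝ} (hC : IsCopula n C) {N : ℕ} (hN : 1 ≤ N)
    (e : ℝ) (he : 0 < e) :
    ∑ j ∈ good n N, mass C N j *
        Real.sqrt (Pool.Agent.Helper89.SH.VV N j * Pool.Agent.Helper89.SH.aa e N j) ≤
      ∑ p : Fin n → Fin N, mass C N (fun k => (p k : ℕ)) *
        Real.sqrt (Pool.Agent.Helper24.Sharp.VV p * Pool.Agent.Helper24.Sharp.aa e p) := by
  have hm : ∀ j ∈ Fintype.piFinset (fun _ : Fin n => range N), 0 ≤ mass C N j := fun j hj =>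
    mass_nonneg hC hN fun k => mem_range.mp (Fintype.mem_piFinset.mp hj k)
  calc _ ≤ ∑ j ∈ Fintype.piFinset (fun _ : Fin n => range N), mass C N j *
        Real.sqrt (Pool.Agent.Helper89.SH.VV N j * Pool.Agent.Helper89.SH.aa e N j) := by
        apply Finset.sum_le_sum_of_subset_of_nonneg
        · exact Finset.filter_subset _ _
        · intro j hj _
          exact mul_nonneg (hm j hj) (Real.sqrt_nonneg _)
    _ = ∑ p : Fin n → Fin N, mass C N (fun k => (p k : ℕ)) *
        Real.sqrt (Pool.Agent.Helper89.SH.VV N (fun k => (p k : ℕ)) *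
          Pool.Agent.Helper89.SH.aa e N (fun k => (p k : ℕ))) :=
        (Pool.Agent.Helper24.Sharp.sum_cell_eq (fun j => mass C N j *
          Real.sqrt (Pool.Agent.Helper89.SH.VV N j * Pool.Agent.Helper89.SH.aa e N j))).symm
    _ ≤ _ := by
        refine Finset.sum_le_sum fun p _ => ?_
        apply mul_le_mul_of_nonneg_left _ (mass_nonneg hC hN fun k => (p k).isLt)
        apply Real.sqrt_le_sqrt
        unfold Pool.Agent.Helper89.SH.VV Pool.Agent.Helper89.SH.aa
          Pool.Agent.Helper24.Sharp.VV Pool.Agent.Helper24.Sharp.aa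
        apply va_mono e he
        · intro k
          exact qv_nonneg (p k).isLt
        · intro k
          unfold qv Pool.Agent.Helper24.Sharp.sx
          have hN0 : (0 : ℝ) < N := by exact_mod_cast hN
          rw [sub_div, div_self hN0.ne']
          have : ((p k : ℕ) : ℝ) / N ≤ (((p k : ℕ) : ℝ) + 1) / N := by
            apply div_le_div_of_nonneg_right (by linarith) hN0.le
          linarith

end Pool.Agent.Helper72.SH
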