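import Mathlib

/-!
# Grid sums of a two sided power
-/

set_option autoImplicit false

namespace Pool.Agent.Helper72.SH

open Finset

/-- `1 ^ e + ... + K ^ e ≤ (K + 1) ^ (e + 1) / (e + 1)` -/
lemma sum_low (e : ℝ) (he : 1 < e) (K : ℕ) :
    ∑ j ∈ range K, ((j : ℝ) + 1) ^ e ≤ ((K : ℝ) + 1) ^ (e + 1) / (e + 1) := by
  induction K with
  | zero =>
    simp only [range_zero, sum_empty, Nat.cast_zero, zero_add, Real.one_rpow]
    positivity
  | succ K ih =>
    rw [sum_range_succ]
    have hK : (0 : ℝ) < (K : ℝ) + 1 := by positivity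
    have h1 : 1 + (e + 1) * (1 / ((K : ℝ) + 1)) ≤ (1 + 1 / ((K : ℝ) + 1)) ^ (e + 1) :=
      one_add_mul_self_le_rpow_one_add (by
        have : (0 : ℝ) ≤ 1 / ((K : ℝ) + 1) := by positivity
        linarith) (by linarith)
    have h2 : ((K : ℝ) + 1 + 1) ^ (e + 1) =
        ((K : ℝ) + 1) ^ (e + 1) * (1 + 1 / ((K : ℝ) + 1)) ^ (e + 1) := by
      rw [← Real.mul_rpow hK.le (by positivity)]
      congr 1
      field_simp
    have h3 : ((K : ℝ) + 1) ^ (e + 1) = ((K : ℝ) + 1) ^ e * ((K : ℝ) + 1) := by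
      rw [Real.rpow_add hK, Real.rpow_one]
    have h4 : 0 < ((K : ℝ) + 1) ^ e := Real.rpow_pos_of_pos hK e
    have h5 : ((K : ℝ) + 1) ^ (e + 1) + (e + 1) * ((K : ℝ) + 1) ^ e ≤
        ((K : ℝ) + 1 + 1) ^ (e + 1) := by
      rw [h2]
      have h6 := mul_le_mul_of_nonneg_left h1 (show 0 ≤ ((K : ℝ) + 1) ^ (e + 1) by positivity)
      refine le_trans (le_of_eq ?_) h6
      rw [h3]
      field_simp
    have he1 : (0 : ℝ) < e + 1 := by linarith
    push_cast
    rw [le_div_iff₀ he1]
    rw [le_div_iff₀ he1] at ih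
    nlinarith

/-- `(a + 1) ^ (-e) + ... + (a + K) ^ (-e) ≤ a ^ (1 - e) / (e - 1)`, scaled by `a ^ e` -/
lemma sum_high (e : ℝ) (he : 1 < e) (a : ℝ) (ha : 0 < a) (K : ℕ) :
    ∑ j ∈ range K, (a / (a + (j + 1))) ^ e ≤
      a / (e - 1) * (1 - (a / (a + K)) ^ (e - 1)) := by
  induction K with
  | zero =>
    simp only [range_zero, sum_empty, Nat.cast_zero, add_zero]
    rw [div_self ha.ne', Real.one_rpow, sub_self, mul_zero]
  | succ K ih =>
    rw [sum_range_succ]
    have hb : 0 < a + K := by positivity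
    have hc : 0 < a + K + 1 := by positivity
    have he1 : (0 : ℝ) < e - 1 := by linarith
    have h1 : 1 + (e - 1) * (1 / (a + K + 1)) ≤ ((a + K + 1) / (a + K)) ^ (e - 1) := by
      rw [Real.rpow_def_of_pos (by positivity)]
      have h2 : 1 - ((a + K + 1) / (a + K))⁻¹ ≤ Real.log ((a + K + 1) / (a + K)) :=
        Real.one_sub_inv_le_log_of_pos (by positivity)
      have h3 : 1 - ((a + K + 1) / (a + K))⁻¹ = 1 / (a + K + 1) := by
        field_simp
        ring
      rw [h3] at h2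
      have h4 := Real.add_one_le_exp (Real.log ((a + K + 1) / (a + K)) * (e - 1))
      have h5 := mul_le_mul_of_nonneg_right h2 he1.le
      linarith
    have h6 : (a / (a + K)) ^ (e - 1) =
        (a / (a + K + 1)) ^ (e - 1) * ((a + K + 1) / (a + K)) ^ (e - 1) := by
      rw [← Real.mul_rpow (by positivity) (by positivity)]
      congr 1
      field_simp
    have h7 : (a / (a + K + 1)) ^ e = (a / (a + K + 1)) ^ (e - 1) * (a / (a + K + 1)) := by
      conv_lhs => rw [show e = (e - 1) + 1 by ring]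
      rw [Real.rpow_add (by positivity), Real.rpow_one]
    have h8 : 0 < (a / (a + K + 1)) ^ (e - 1) := Real.rpow_pos_of_pos (by positivity) _
    have h9 := mul_le_mul_of_nonneg_left h1 h8.le
    rw [← h6] at h9
    have h10 : (a / (a + K + 1)) ^ e ≤
        a / (e - 1) * ((a / (a + K)) ^ (e - 1) - (a / (a + K + 1)) ^ (e - 1)) := by
      have h11 : a / (e - 1) * ((a / (a + K + 1)) ^ (e - 1) * ((e - 1) * (1 / (a + K + 1)))) ≤
          a / (e - 1) * ((a / (a + K)) ^ (e - 1) - (a / (a + K + 1)) ^ (e - 1)) := by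
        apply mul_le_mul_of_nonneg_left _ (by positivity)
        linarith
      refine le_trans (le_of_eq ?_) h11
      rw [h7]
      field_simp
    have h12 : a + ((K : ℝ) + 1) = a + K + 1 := by ring
    push_cast
    rw [h12]
    have h13 : a / (e - 1) * (1 - (a / (a + K + 1)) ^ (e - 1)) =
        a / (e - 1) * (1 - (a / (a + K)) ^ (e - 1)) +
          a / (e - 1) * ((a / (a + K)) ^ (e - 1) - (a / (a + K + 1)) ^ (e - 1)) := by ring
    rw [h13]
    exact add_le_add ih h10

/-- the two sided sum -/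
lemma sum_two (e : ℝ) (he : 1 < e) (a N : ℕ) (ha : 1 ≤ a) (haN : a ≤ N) :
    ∑ j ∈ range N, Real.exp (-(e * |Real.log a - Real.log ((j + 1 : ℕ) : ℝ)|)) ≤
      1 + a * (2 * e / (e ^ 2 - 1)) := by
  obtain ⟨b, rfl⟩ : ∃ b, a = b + 1 := ⟨a - 1, by omega⟩
  obtain ⟨K, rfl⟩ : ∃ K, N = b + 1 + K := ⟨N - (b + 1), by omega⟩
  rw [sum_range_add, sum_range_succ]
  set A : ℝ := ((b + 1 : ℕ) : ℝ) with hA
  have hA0 : 0 < A := by rw [hA]; positivity
  have he1 : (0 : ℝ) < e - 1 := by linarith
  have he2 : (0 : ℝ) < e + 1 := by linarith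
  have h1 : ∑ j ∈ range b, Real.exp (-(e * |Real.log A - Real.log ((j + 1 : ℕ) : ℝ)|)) ≤
      A / (e + 1) := by
    have h2 : ∀ j ∈ range b, Real.exp (-(e * |Real.log A - Real.log ((j + 1 : ℕ) : ℝ)|)) =
        ((j : ℝ) + 1) ^ e * (A ^ e)⁻¹ := by
      intro j hj
      have hj' : j < b := mem_range.1 hj
      have h3 : (0 : ℝ) < (j : ℝ) + 1 := by positivity
      have h4 : (j : ℝ) + 1 ≤ A := by
        rw [hA]; push_cast
        have : (j : ℝ) < b := by exact_mod_cast hj'
        linarith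
      have h5 : Real.log ((j : ℝ) + 1) ≤ Real.log A := Real.log_le_log h3 h4
      push_cast
      rw [abs_of_nonneg (by linarith), Real.rpow_def_of_pos h3, Real.rpow_def_of_pos hA0,
        ← Real.exp_neg, ← Real.exp_add]
      congr 1
      ring
    rw [sum_congr rfl h2, ← sum_mul]
    have h3 := sum_low e he b
    have h4 : 0 < A ^ e := Real.rpow_pos_of_pos hA0 e
    have h5 : ((b : ℝ) + 1) ^ (e + 1) = A ^ e * A := by
      rw [hA]; push_cast
      rw [Real.rpow_add (by positivity), Real.rpow_one]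
    rw [h5] at h3
    have h6 := mul_le_mul_of_nonneg_right h3 (inv_nonneg.2 h4.le)
    refine h6.trans (le_of_eq ?_)
    field_simp
  have h2 : Real.exp (-(e * |Real.log A - Real.log A|)) = 1 := by
    rw [sub_self, abs_zero, mul_zero, neg_zero, Real.exp_zero]
  have h3 : ∑ x ∈ range K, Real.exp (-(e * |Real.log A - Real.log ((b + 1 + x + 1 : ℕ) : ℝ)|)) ≤
      A / (e - 1) := by
    have h4 : ∀ j ∈ range K, Real.exp (-(e * |Real.log A -
        Real.log ((b + 1 + j + 1 : ℕ) : ℝ)|)) = (A / (A + (j + 1))) ^ e := by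
      intro j _
      have h5 : ((b + 1 + j + 1 : ℕ) : ℝ) = A + (j + 1) := by
        rw [hA]; push_cast; ring
      rw [h5]
      have h6 : 0 < A + ((j : ℝ) + 1) := by positivity
      have h7 : Real.log A ≤ Real.log (A + ((j : ℝ) + 1)) :=
        Real.log_le_log hA0 (by linarith [show (0 : ℝ) ≤ (j : ℝ) + 1 by positivity])
      rw [abs_of_nonpos (by linarith), Real.rpow_def_of_pos (by positivity),
        Real.log_div hA0.ne' h6.ne']
      congr 1
      ring
    rw [sum_congr rfl h4]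
    refine (sum_high e he A hA0 K).trans ?_
    have h5 : 0 ≤ (A / (A + K)) ^ (e - 1) := Real.rpow_nonneg (by positivity) _
    have h6 : 0 ≤ A / (e - 1) := by positivity
    nlinarith
  rw [h2]
  have h4 : A / (e + 1) + A / (e - 1) = A * (2 * e / (e ^ 2 - 1)) := by
    have h5 : e ^ 2 - 1 = (e + 1) * (e - 1) := by ring
    rw [h5]
    field_simp
    ring
  linarith

end Pool.Agent.Helper72.SH
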