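import Pool.Agent.Helper72.SH.Term
import Pool.Agent.Helper72.SH.Grid

/-!
# The cross sum (row L2 of the sharp asymptotics of `1 - s_n`)
-/

set_option autoImplicit false

namespace Pool.Agent.Helper72.SH

open Finset Filter Topology Pool.Agent.Helper24.Sharp

variable {n N : ℕ}

/-- sums of functions of one coordinate -/
lemma sum_marg (μ : (Fin n → Fin N) → ℝ) (hu : UnifW μ) (k : Fin n) (f : Fin N → ℝ) :
    ∑ q, μ q * f (q k) = 1 / N * ∑ c, f c := by
  calc ∑ q, μ q * f (q k) = ∑ q : Fin n → Fin N, ∑ c, (if q k = c then μ q else 0) * f c := by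
        refine Finset.sum_congr rfl fun q _ => ?_
        simp [ite_mul]
    _ = ∑ c, ∑ q : Fin n → Fin N, (if q k = c then μ q else 0) * f c := Finset.sum_comm
    _ = ∑ c, 1 / N * f c := by
        refine Finset.sum_congr rfl fun c _ => ?_
        rw [← Finset.sum_mul, hu k c]
    _ = _ := by rw [Finset.mul_sum]

/-- the total mass -/
lemma sum_mu (hn : 1 ≤ n) (hN : 1 ≤ N) (μ : (Fin n → Fin N) → ℝ) (hu : UnifW μ) :
    ∑ p, μ p = 1 := by
  have h := sum_marg μ hu ⟨0, hn⟩ (fun _ => 1)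
  have hN0 : (N : ℝ) ≠ 0 := by
    have : N ≠ 0 := by omega
    exact_mod_cast this
  simp only [mul_one, Finset.sum_const, Finset.card_univ, Fintype.card_fin, nsmul_eq_mul] at h
  rw [h]
  field_simp

/-- the sum over a column of cells -/
lemma grid_fin (e : ℝ) (he : 1 < e) (c0 : Fin N) :
    ∑ c : Fin N, Real.exp (-(e * |Real.log (sx N c0) - Real.log (sx N c)|)) ≤
      1 + N * sx N c0 * (2 * e / (e ^ 2 - 1)) := by
  have hN0 := npos_of_fin c0
  have ha1 : 1 ≤ N - (c0 : ℕ) := by have := c0.2; omega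
  have haN : N - (c0 : ℕ) ≤ N := Nat.sub_le _ _
  have h1 := sum_two e he (N - (c0 : ℕ)) N ha1 haN
  have hcast : ((N - (c0 : ℕ) : ℕ) : ℝ) = (N : ℝ) - (c0 : ℕ) := Nat.cast_sub c0.2.le
  have h2 : (N : ℝ) * sx N c0 = ((N - (c0 : ℕ) : ℕ) : ℝ) := by
    rw [hcast]; unfold sx; field_simp
  rw [h2]
  refine le_trans (le_of_eq ?_) h1
  set F : ℕ → ℝ := fun j => Real.exp (-(e * |Real.log ((N - (c0 : ℕ) : ℕ) : ℝ) -
    Real.log ((j + 1 : ℕ) : ℝ)|)) with hF
  have h3 : ∀ c : Fin N, Real.exp (-(e * |Real.log (sx N c0) - Real.log (sx N c)|)) =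
      F (N - 1 - (c : ℕ)) := by
    intro c
    have hc : N - 1 - (c : ℕ) + 1 = N - (c : ℕ) := by have := c.2; omega
    have hcc : ((N - (c : ℕ) : ℕ) : ℝ) = (N : ℝ) - (c : ℕ) := Nat.cast_sub c.2.le
    simp only [hF]
    rw [hc, hcast, hcc]
    have p1 : (0 : ℝ) < (N : ℝ) - (c0 : ℕ) := by
      have : ((c0 : ℕ) : ℝ) < N := by exact_mod_cast c0.2
      linarith
    have p2 : (0 : ℝ) < (N : ℝ) - (c : ℕ) := by
      have : ((c : ℕ) : ℝ) < N := by exact_mod_cast c.2
      linarith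
    unfold sx
    rw [Real.log_div p1.ne' hN0.ne', Real.log_div p2.ne' hN0.ne']
    congr 4
    ring
  rw [Finset.sum_congr rfl fun c _ => h3 c, Fin.sum_univ_eq_sum_range (fun i => F (N - 1 - i)) N,
    Finset.sum_range_reflect F N]

/-- convexity of `exp` -/
lemma jensen (ε θ : ℝ) (hε : 0 < ε) (hε1 : ε ≤ 1) (hn : 1 ≤ n) (p q : Fin n → Fin N) :
    aa ε p * Real.exp (-(θ * dl p q / 2)) ≤
      ∑ k, 1 / max (sx N (p k)) ε * Real.exp (-(aa ε p * θ / 2 * max (sx N (p k)) ε *
        |Real.log (sx N (p k)) - Real.log (sx N (q k))|)) := by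
  have hn0 : (0 : ℝ) < n := by exact_mod_cast hn
  have hap : 0 < aa ε p := lt_of_lt_of_le hn0 (n_le_aa ε hε hε1 p)
  set A := aa ε p with hA
  set w : Fin n → ℝ := fun k => 1 / max (sx N (p k)) ε / A with hw
  set y : Fin n → ℝ := fun k => -(A * θ / 2 * max (sx N (p k)) ε *
        |Real.log (sx N (p k)) - Real.log (sx N (q k))|) with hy
  have hw0 : ∀ k ∈ (Finset.univ : Finset (Fin n)), 0 ≤ w k := fun k _ =>
    div_nonneg (inv_max_nonneg ε hε _) hap.le
  have hw1 : ∑ k, w k = 1 := by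
    rw [← Finset.sum_div]
    have : ∑ k, 1 / max (sx N (p k)) ε = A := rfl
    rw [this, div_self hap.ne']
  have hJ := convexOn_exp.map_sum_le hw0 hw1 (p := y) (fun _ _ => Set.mem_univ _)
  have h1 : ∑ k, w k • y k = -(θ * dl p q / 2) := by
    have : ∀ k, w k • y k = -(θ * |Real.log (sx N (p k)) - Real.log (sx N (q k))| / 2) := by
      intro k
      have hM : 0 < max (sx N (p k)) ε := lt_max_of_lt_right hε
      simp only [hw, hy, smul_eq_mul]
      field_simp
    rw [Finset.sum_congr rfl fun k _ => this k, Finset.sum_neg_distrib, ← Finset.sum_div,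
      ← Finset.mul_sum]
    rfl
  rw [h1] at hJ
  calc A * Real.exp (-(θ * dl p q / 2)) ≤ A * ∑ k, w k • Real.exp (y k) :=
        mul_le_mul_of_nonneg_left hJ hap.le
    _ = _ := by
        rw [Finset.mul_sum]
        refine Finset.sum_congr rfl fun k _ => ?_
        simp only [hw, hy, smul_eq_mul]
        field_simp

/-- the sum over the second cell -/
lemma inner_le (ε θ : ℝ) (hε : 0 < ε) (hε1 : ε ≤ 1) (hn : 1 ≤ n) (hN : 1 ≤ N) (hθ : 0 < θ)
    (h2 : 2 < n * θ * ε) (μ : (Fin n → Fin N) → ℝ) (hμ : ∀ p, 0 ≤ μ p) (hu : UnifW μ)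
    (p : Fin n → Fin N) :
    ∑ q, μ q * (aa ε p * Real.exp (-(θ * dl p q / 2))) ≤
      4 / θ / (1 - 4 / (n * θ * ε) ^ 2) + n / (ε * N) := by
  have hn0 : (0 : ℝ) < n := by exact_mod_cast hn
  have hN0 : (0 : ℝ) < N := by exact_mod_cast hN
  have hnA := n_le_aa ε hε hε1 p
  have hap : 0 < aa ε p := lt_of_lt_of_le hn0 hnA
  set A := aa ε p with hA
  set M : Fin n → ℝ := fun k => max (sx N (p k)) ε with hM
  have hMe : ∀ k, ε ≤ M k := fun k => le_max_right _ _
  have hM0 : ∀ k, 0 < M k := fun k => lt_of_lt_of_le hε (hMe k)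
  have hPM : ∀ k, sx N (p k) ≤ M k := fun k => le_max_left _ _
  set e0 : ℝ := n * θ * ε / 2 with he0
  have he01 : 1 < e0 := by rw [he0]; linarith
  set e : Fin n → ℝ := fun k => A * θ / 2 * M k with he
  have hee : ∀ k, e0 ≤ e k := by
    intro k
    simp only [he, he0]
    have h3 : (n : ℝ) * θ * ε ≤ A * θ * M k := by
      have := hMe k
      have h4 : (n : ℝ) * θ ≤ A * θ := mul_le_mul_of_nonneg_right hnA hθ.le
      exact mul_le_mul h4 this hε.le (by positivity)
    linarith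
  have he1 : ∀ k, 1 < e k := fun k => lt_of_lt_of_le he01 (hee k)
  have hD0 : 0 < 1 - 1 / e0 ^ 2 := by
    have : 1 / e0 ^ 2 < 1 := by
      rw [div_lt_one (by positivity)]
      nlinarith
    linarith
  have hD : 1 - 4 / (n * θ * ε) ^ 2 = 1 - 1 / e0 ^ 2 := by
    rw [he0]
    field_simp
    ring
  rw [hD]
  calc ∑ q, μ q * (A * Real.exp (-(θ * dl p q / 2)))
      ≤ ∑ q, μ q * ∑ k, 1 / M k * Real.exp (-(e k *
        |Real.log (sx N (p k)) - Real.log (sx N (q k))|)) :=
        Finset.sum_le_sum fun q _ => mul_le_mul_of_nonneg_left (jensen ε θ hε hε1 hn p q) (hμ q)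
    _ = ∑ k, 1 / M k * ∑ q, μ q * Real.exp (-(e k *
        |Real.log (sx N (p k)) - Real.log (sx N (q k))|)) := by
        simp_rw [Finset.mul_sum]
        rw [Finset.sum_comm]
        refine Finset.sum_congr rfl fun k _ => Finset.sum_congr rfl fun q _ => ?_
        ring
    _ = ∑ k, 1 / M k * (1 / N * ∑ c : Fin N, Real.exp (-(e k *
        |Real.log (sx N (p k)) - Real.log (sx N c)|))) := by
        refine Finset.sum_congr rfl fun k _ => ?_
        rw [sum_marg μ hu k (fun c => Real.exp (-(e k *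
          |Real.log (sx N (p k)) - Real.log (sx N c)|)))]
    _ ≤ ∑ k, (4 / (A * θ) / (1 - 1 / e0 ^ 2) * (1 / M k) + 1 / (ε * N)) := by
        refine Finset.sum_le_sum fun k _ => ?_
        have hg := grid_fin (e k) (he1 k) (p k)
        have hek := he1 k
        have hMk := hM0 k
        have hPk := sx_pos (p k)
        have h3 : 1 / M k * (1 / N * ∑ c : Fin N, Real.exp (-(e k *
            |Real.log (sx N (p k)) - Real.log (sx N c)|))) ≤
            1 / M k * (1 / N * (1 + N * sx N (p k) * (2 * e k / (e k ^ 2 - 1)))) := by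
          gcongr
        have h4 : 1 / M k * (1 / N * (1 + N * sx N (p k) * (2 * e k / (e k ^ 2 - 1)))) =
            1 / (M k * N) + (sx N (p k) / M k) * (2 * e k / (e k ^ 2 - 1)) := by
          field_simp
        have hsq : 0 < e k ^ 2 - 1 := by nlinarith
        have h5 : (sx N (p k) / M k) * (2 * e k / (e k ^ 2 - 1)) ≤
            1 * (2 * e k / (e k ^ 2 - 1)) := by
          apply mul_le_mul_of_nonneg_right _ (by positivity)
          rw [div_le_one hMk]
          exact hPM k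
        have hek0 : 0 < e k := by linarith
        have h6 : 2 * e k / (e k ^ 2 - 1) = 2 / e k / (1 - 1 / e k ^ 2) := by
          have : 1 - 1 / e k ^ 2 = (e k ^ 2 - 1) / e k ^ 2 := by field_simp
          rw [this]
          field_simp
        have h7 : 2 / e k / (1 - 1 / e k ^ 2) ≤ 2 / e k / (1 - 1 / e0 ^ 2) := by
          apply div_le_div_of_nonneg_left (by positivity) hD0
          have : 1 / e k ^ 2 ≤ 1 / e0 ^ 2 := by
            apply one_div_le_one_div_of_le (by positivity)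
            exact pow_le_pow_left₀ (by linarith) (hee k) 2
          linarith
        have h8 : 2 / e k / (1 - 1 / e0 ^ 2) = 4 / (A * θ) / (1 - 1 / e0 ^ 2) * (1 / M k) := by
          have : 2 / e k = 4 / (A * θ) * (1 / M k) := by
            simp only [he]
            field_simp
            ring
          rw [this]
          ring
        have h9 : 1 / (M k * N) ≤ 1 / (ε * N) := by
          apply one_div_le_one_div_of_le (by positivity)
          exact mul_le_mul_of_nonneg_right (hMe k) hN0.le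
        linarith
    _ = 4 / θ / (1 - 1 / e0 ^ 2) + n / (ε * N) := by
        rw [Finset.sum_add_distrib, ← Finset.mul_sum]
        have : ∑ k, 1 / M k = A := rfl
        rw [this, Finset.sum_const, Finset.card_univ, Fintype.card_fin, nsmul_eq_mul]
        field_simp

/-- the sum of the ties -/
lemma tie_sum (ε : ℝ) (hε : 0 < ε) (hN : 1 ≤ N) (μ : (Fin n → Fin N) → ℝ)
    (hu : UnifW μ) (p : Fin n → Fin N) :
    ∑ q, μ q * tie ε p q ≤ n / (ε * N) := by
  have hN0 : (0 : ℝ) < N := by exact_mod_cast hN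
  calc ∑ q, μ q * tie ε p q = ∑ k, ∑ q, μ q * (if p k = q k then 1 / max (sx N (p k)) ε else 0) := by
        unfold tie
        simp_rw [Finset.mul_sum]
        exact Finset.sum_comm
    _ = ∑ k, 1 / N * (1 / max (sx N (p k)) ε) := by
        refine Finset.sum_congr rfl fun k _ => ?_
        rw [sum_marg μ hu k (fun c => if p k = c then 1 / max (sx N (p k)) ε else 0)]
        simp
    _ ≤ ∑ _k : Fin n, 1 / N * (1 / ε) := by
        refine Finset.sum_le_sum fun k _ => ?_
        exact mul_le_mul_of_nonneg_left (inv_max_le ε hε _) (by positivity)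
    _ = n / (ε * N) := by
        rw [Finset.sum_const, Finset.card_univ, Fintype.card_fin, nsmul_eq_mul]
        field_simp

/-- the cross sum -/
theorem cross_le (ε θ : ℝ) (hε : 0 < ε) (hε1 : ε ≤ 1) (hn : 1 ≤ n) (hN : 1 ≤ N)
    (hθ : θ = 1 - 4 / (ε ^ 2 * n)) (hθ0 : 0 < θ) (h2 : 2 < n * θ * ε)
    (μ : (Fin n → Fin N) → ℝ) (hμ : ∀ p, 0 ≤ μ p) (hu : UnifW μ) :
    cross ε μ ≤ 1 / θ / (1 - 4 / (n * θ * ε) ^ 2) + n / (ε * N) := by
  have hn0 : (0 : ℝ) < n := by exact_mod_cast hn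
  have hN0 : (0 : ℝ) < N := by exact_mod_cast hN
  set B : ℝ := 1 / θ / (1 - 4 / (n * θ * ε) ^ 2) + n / (ε * N) with hB
  have h3 : ∀ p, ∑ q, μ q * (1 / 4 * (aa ε p * Real.exp (-(θ * dl p q / 2))) +
      3 / 4 * tie ε p q) ≤ B := by
    intro p
    have e1 : ∑ q, μ q * (1 / 4 * (aa ε p * Real.exp (-(θ * dl p q / 2))) +
        3 / 4 * tie ε p q) = 1 / 4 * ∑ q, μ q * (aa ε p * Real.exp (-(θ * dl p q / 2))) +
        3 / 4 * ∑ q, μ q * tie ε p q := by
      rw [Finset.mul_sum, Finset.mul_sum, ← Finset.sum_add_distrib]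
      refine Finset.sum_congr rfl fun q _ => ?_
      ring
    rw [e1]
    have e2 := inner_le ε θ hε hε1 hn hN hθ0 h2 μ hμ hu p
    have e3 := tie_sum ε hε hN μ hu p
    have e4 : B = 1 / 4 * (4 / θ / (1 - 4 / (n * θ * ε) ^ 2) + n / (ε * N)) +
        3 / 4 * (n / (ε * N)) := by
      rw [hB]; ring
    rw [e4]
    linarith
  calc cross ε μ ≤ ∑ p, μ p * ∑ q, μ q * (1 / 4 * (aa ε p * Real.exp (-(θ * dl p q / 2))) +
        3 / 4 * tie ε p q) := by
        unfold cross
        refine Finset.sum_le_sum fun p _ => ?_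
        rw [Finset.mul_sum]
        refine Finset.sum_le_sum fun q _ => ?_
        have h4 := term_le ε hε hε1 hn (by rw [← hθ]; exact hθ0) p q
        rw [← hθ] at h4
        rw [mul_assoc]
        exact mul_le_mul_of_nonneg_left (mul_le_mul_of_nonneg_left h4 (hμ q)) (hμ p)
    _ ≤ ∑ p, μ p * B :=
        Finset.sum_le_sum fun p _ => mul_le_mul_of_nonneg_left (h3 p) (hμ p)
    _ = B := by
        rw [← Finset.sum_mul, sum_mu hn hN μ hu, one_mul]

/-- **row L2**: for `n` large and then `N` large, the cross sum is at most `1 + η` -/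
theorem crossBound (ε η : ℝ) (hε : 0 < ε) (hε1 : ε ≤ 1) (hη : 0 < η) :
    ∀ᶠ n : ℕ in atTop, ∀ᶠ N : ℕ in atTop, ∀ μ : (Fin n → Fin N) → ℝ,
      (∀ p, 0 ≤ μ p) → UnifW μ → cross ε μ ≤ 1 + η := by
  have hθ : Tendsto (fun n : ℕ => 1 - 4 / (ε ^ 2 * (n : ℝ))) atTop (𝓝 1) := by
    have h1 : Tendsto (fun n : ℕ => 4 / (ε ^ 2 * (n : ℝ))) atTop (𝓝 0) := by
      apply Tendsto.const_div_atTop
      exact Tendsto.const_mul_atTop (by positivity) tendsto_natCast_atTop_atTop
    have h2 := (tendsto_const_nhds (x := (1 : ℝ))).sub h1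
    simpa using h2
  have hx : Tendsto (fun n : ℕ => (n : ℝ) * (1 - 4 / (ε ^ 2 * (n : ℝ))) * ε) atTop atTop := by
    apply Tendsto.atTop_mul_const hε
    exact Tendsto.atTop_mul_pos one_pos tendsto_natCast_atTop_atTop hθ
  have hq : Tendsto (fun n : ℕ => 4 / ((n : ℝ) * (1 - 4 / (ε ^ 2 * (n : ℝ))) * ε) ^ 2) atTop
      (𝓝 0) := by
    apply Tendsto.const_div_atTop
    exact (tendsto_pow_atTop (by norm_num)).comp hx
  have hlim : Tendsto (fun n : ℕ => 1 / (1 - 4 / (ε ^ 2 * (n : ℝ))) /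
      (1 - 4 / ((n : ℝ) * (1 - 4 / (ε ^ 2 * (n : ℝ))) * ε) ^ 2)) atTop (𝓝 1) := by
    have h1 : Tendsto (fun n : ℕ => 1 / (1 - 4 / (ε ^ 2 * (n : ℝ)))) atTop (𝓝 (1 / 1)) :=
      tendsto_const_nhds.div hθ (by norm_num)
    have h2 : Tendsto (fun n : ℕ => 1 - 4 / ((n : ℝ) * (1 - 4 / (ε ^ 2 * (n : ℝ))) * ε) ^ 2)
        atTop (𝓝 (1 - 0)) := tendsto_const_nhds.sub hq
    have h3 := h1.div h2 (by norm_num)
    have h4 : (1 / 1 : ℝ) / (1 - 0) = 1 := by norm_num
    rw [h4] at h3
    exact h3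
  have e1 := hθ.eventually (lt_mem_nhds (show (0 : ℝ) < 1 by norm_num))
  have e2 := hx.eventually (eventually_gt_atTop 2)
  have e3 := hlim.eventually (gt_mem_nhds (show (1 : ℝ) < 1 + η / 2 by linarith))
  filter_upwards [e1, e2, e3, eventually_ge_atTop 1] with n h1 h2 h3 hn
  have hNlim : Tendsto (fun N : ℕ => (n : ℝ) / (ε * (N : ℝ))) atTop (𝓝 0) := by
    apply Tendsto.const_div_atTop
    exact Tendsto.const_mul_atTop hε tendsto_natCast_atTop_atTop
  have e4 := hNlim.eventually (gt_mem_nhds (show (0 : ℝ) < η / 2 by linarith))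
  filter_upwards [e4, eventually_ge_atTop 1] with N h4 hN μ hμ hu
  have h5 := cross_le ε _ hε hε1 hn hN rfl h1 h2 μ hμ hu
  linarith

end Pool.Agent.Helper72.SH
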