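import Pool.Agent.Helper24.Sharp.Second
import Pool.Agent.Helper72.SH.Cross
import Pool.Agent.Helper72.SH.Bridge
import Pool.Agent.Helper6.SH.Grid
import Pool.Agent.Helper45.CR.Fin
import Pool.Agent.H54Sharp.Stmt

/-!
# The lower half of the sharp asymptotics of `1 - s_n`
-/

set_option autoImplicit false

namespace Pool.Agent.Helper72.SH

open Finset MeasureTheory Filter Topology Pool.Agent.Helper43.Copula Pool.Agent.Helper3.Cop
  Pool.Agent.Helper45.CR

/-- the truncated integrals converge -/
lemma tend_psi : Tendsto (fun L : ℝ => ∫ y in Set.Ioi (0 : ℝ),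
    min y L * (min y L - Real.log (min y L)) * Real.exp (-y)) atTop
    (𝓝 (1 + Real.eulerMascheroniConstant)) := by
  rw [← Pool.Agent.Helper18.Sharp.int_psi]
  apply MeasureTheory.tendsto_integral_filter_of_dominated_convergence
    (fun y => Pool.Agent.Helper18.Sharp.psi y * Real.exp (-y))
  · filter_upwards with L
    have h1 : Measurable (fun y : ℝ => min y L * (min y L - Real.log (min y L))) :=
      Pool.Agent.Helper6.SH.g1_meas L
    exact (h1.mul (Real.measurable_exp.comp measurable_neg)).aestronglyMeasurable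
  · filter_upwards [eventually_ge_atTop 0] with L hL
    filter_upwards [ae_restrict_mem measurableSet_Ioi] with y hy
    have hy0 : (0 : ℝ) < y := hy
    have hm0 : 0 ≤ min y L := le_min hy0.le hL
    have e1 : min y L * (min y L - Real.log (min y L)) =
        Pool.Agent.Helper18.Sharp.psi (min y L) := by
      unfold Pool.Agent.Helper18.Sharp.psi; ring
    rw [e1, Real.norm_of_nonneg (mul_nonneg (Pool.Agent.Helper18.Sharp.psi_nonneg hm0)
      (Real.exp_pos _).le)]
    exact mul_le_mul_of_nonneg_right (Pool.Agent.Helper18.Sharp.psi_mono hm0 hy0.le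
      (min_le_left _ _)) (Real.exp_pos _).le
  · exact Pool.Agent.Helper18.Sharp.integrable_psi
  · filter_upwards with y
    apply tendsto_const_nhds.congr'
    filter_upwards [eventually_ge_atTop y] with L hL
    rw [min_eq_left hL]
    unfold Pool.Agent.Helper18.Sharp.psi
    ring

/-- the exponent -/
lemma tend_exponent : Tendsto (fun L : ℝ => (∫ y in Set.Ioi (0 : ℝ),
    min y L * (min y L - Real.log (min y L)) * Real.exp (-y)) - (2 * L ^ 2 + 4) * Real.exp (-L))
    atTop (𝓝 (1 + Real.eulerMascheroniConstant)) := by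
  have h1 := Real.tendsto_pow_mul_exp_neg_atTop_nhds_zero 2
  have h2 : Tendsto (fun L : ℝ => Real.exp (-L)) atTop (𝓝 0) :=
    Real.tendsto_exp_neg_atTop_nhds_zero
  have h3 : Tendsto (fun L : ℝ => (2 * L ^ 2 + 4) * Real.exp (-L)) atTop (𝓝 0) := by
    have h4 := (h1.const_mul 2).add (h2.const_mul 4)
    have e : (2 : ℝ) * 0 + 4 * 0 = 0 := by ring
    rw [e] at h4
    refine h4.congr fun L => ?_
    ring
  have h5 := tend_psi.sub h3
  rw [sub_zero] at h5
  exact h5

/-- lower bound of the volume of the positivity set -/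
theorem vol_lower (K : ℝ) (hK : K < Real.exp (1 + Real.eulerMascheroniConstant) / 2) :
    ∀ᶠ n : ℕ in atTop, ∀ C : (Fin n → ℝ) → ℝ, IsCopula n C →
      K * n * Real.exp (-(n : ℝ)) ≤ (volume (posSet n C)).toReal := by
  -- choice of `L`
  have hE := (Real.continuous_exp.tendsto _).comp tend_exponent
  have e1 := hE.eventually (lt_mem_nhds (show 2 * K < Real.exp (1 +
    Real.eulerMascheroniConstant) by linarith))
  obtain ⟨L, hL1, hL2⟩ := (e1.and (eventually_ge_atTop 1)).exists
  simp only [Function.comp] at hL1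
  set ψ : ℝ := (∫ y in Set.Ioi (0 : ℝ), min y L * (min y L - Real.log (min y L)) *
    Real.exp (-y)) - (2 * L ^ 2 + 4) * Real.exp (-L) with hψ
  set E : ℝ := Real.exp (ψ / 2) with hEdef
  have hE0 : 0 < E := Real.exp_pos _
  have hE2 : E ^ 2 = Real.exp ψ := by
    rw [hEdef, ← Real.exp_nat_mul]
    congr 1
    push_cast
    ring
  rw [← hE2] at hL1
  set η : ℝ := (E ^ 2 - 2 * K) / (2 * (|K| + 1)) with hη
  have hη0 : 0 < η := by
    have : 0 ≤ |K| := abs_nonneg K
    exact div_pos (by linarith) (by positivity)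
  have hKη : K * (2 + η) < E ^ 2 := by
    have h1 : K * η ≤ |K| * η := mul_le_mul_of_nonneg_right (le_abs_self K) hη0.le
    have h2 : |K| * η ≤ (|K| + 1) * η := mul_le_mul_of_nonneg_right (by linarith) hη0.le
    have h3 : (|K| + 1) * η = (E ^ 2 - 2 * K) / 2 := by
      have : 0 ≤ |K| := abs_nonneg K
      have h4 : |K| + 1 ≠ 0 := by positivity
      rw [hη]
      field_simp
    linarith
  set F' : ℝ := Real.sqrt (max (K * (2 + η)) 0) with hF'
  have hF'0 : 0 ≤ F' := Real.sqrt_nonneg _
  have hF'2 : K * (2 + η) ≤ F' ^ 2 := by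
    rw [hF', Real.sq_sqrt (le_max_right _ _)]
    exact le_max_left _ _
  have hF'E : F' < E := by
    rw [hF', Real.sqrt_lt' hE0]
    exact max_lt hKη (by positivity)
  -- the factor tends to `E`
  set c : ℝ := 2 * L ^ 2 + 4 with hc
  have hcn : Tendsto (fun n : ℕ => c / (n : ℝ)) atTop (𝓝 0) :=
    tendsto_const_div_atTop_nhds_zero_nat c
  have hF : Tendsto (fun n : ℕ => E * (1 - Real.sqrt (c / n) -
      4 * (c / n) * (L ^ 2 + 1 + c * Real.exp (-L)))) atTop (𝓝 E) := by
    have h1 : Tendsto (fun n : ℕ => Real.sqrt (c / n)) atTop (𝓝 0) := by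
      have := (Real.continuous_sqrt.tendsto 0).comp hcn
      rw [Real.sqrt_zero] at this
      exact this
    have h2 := (((tendsto_const_nhds (x := (1 : ℝ))).sub h1).sub
      ((hcn.const_mul 4).mul_const (L ^ 2 + 1 + c * Real.exp (-L)))).const_mul E
    have e : E * (1 - 0 - 4 * 0 * (L ^ 2 + 1 + c * Real.exp (-L))) = E := by ring
    rw [e] at h2
    exact h2
  have e2 := hF.eventually (lt_mem_nhds hF'E)
  have e3 := hcn.eventually (gt_mem_nhds (show (0 : ℝ) < 1 / 6 by norm_num))
  have hεL : 0 < Real.exp (-L) := Real.exp_pos _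
  have hεL1 : Real.exp (-L) ≤ 1 := by
    rw [Real.exp_le_one_iff]; linarith
  have e4 := crossBound (Real.exp (-L)) η hεL hεL1 hη0
  filter_upwards [e2, e3, e4, eventually_ge_atTop 1] with n h2 h3 h4 hn C hC
  have hn0 : (0 : ℝ) < n := by exact_mod_cast hn
  set F : ℝ := E * (1 - Real.sqrt (c / n) -
      4 * (c / n) * (L ^ 2 + 1 + c * Real.exp (-L))) with hFdef
  set r : ℝ := Real.sqrt n * Real.exp (-((n : ℝ) / 2)) with hr
  have hr0 : 0 < r := mul_pos (Real.sqrt_pos.mpr hn0) (Real.exp_pos _)
  have hr2 : r ^ 2 = n * Real.exp (-(n : ℝ)) := by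
    rw [hr, mul_pow, Real.sq_sqrt hn0.le, ← Real.exp_nat_mul]
    congr 2
    push_cast
    ring
  have hd : 0 < r * (F - F') := mul_pos hr0 (by linarith)
  have h5 := Pool.Agent.Helper6.SH.l3 L hL2 n hn h3.le C hC (r * (F - F')) hd
  have hlim : Tendsto (fun N : ℕ => ((volume (posSet n C)).toReal + n / N) * (2 + η)) atTop
      (𝓝 (((volume (posSet n C)).toReal + 0) * (2 + η))) :=
    ((tendsto_const_div_atTop_nhds_zero_nat (n : ℝ)).const_add _).mul_const _
  have h6 : (r * F') ^ 2 ≤ ((volume (posSet n C)).toReal + 0) * (2 + η) := by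
    apply ge_of_tendsto hlim
    filter_upwards [h4, h5, eventually_ge_atTop 1] with N g4 g5 hN
    have hN0 : (0 : ℝ) < N := by exact_mod_cast hN
    have g6 := bridge hC hN (Real.exp (-L)) hεL
    have g7 := Pool.Agent.Helper24.Sharp.secondMoment n N C (Real.exp (-L)) hn hN hC hεL
    have g8 := g4 (Pool.Agent.Helper24.Sharp.wt C N)
      (Pool.Agent.Helper24.Sharp.wt_nonneg hC hN) (Pool.Agent.Helper24.Sharp.unif_wt hn hC hN)
    have g9 : r * F' ≤ ∑ p : Fin n → Fin N, mass C N (fun k => (p k : ℕ)) *
        Real.sqrt (Pool.Agent.Helper24.Sharp.VV p *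
          Pool.Agent.Helper24.Sharp.aa (Real.exp (-L)) p) := by
      refine le_trans ?_ (le_trans g5 g6)
      have : r * F' = r * F - r * (F - F') := by ring
      rw [this]
    have g10 : (0 : ℝ) ≤ (volume (posSet n C)).toReal + n / N := by positivity
    calc (r * F') ^ 2 ≤ _ := pow_le_pow_left₀ (mul_nonneg hr0.le hF'0) g9 2
      _ ≤ _ := g7
      _ ≤ ((volume (posSet n C)).toReal + n / N) * (2 + η) := by
        apply mul_le_mul_of_nonneg_left _ g10
        have g11 : Pool.Agent.Helper24.Sharp.cross (Real.exp (-L))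
          (fun p : Fin n → Fin N => mass C N (fun k => (p k : ℕ))) ≤ 1 + η := g8
        linarith
  rw [add_zero, mul_pow, hr2] at h6
  have h7 : (n * Real.exp (-(n : ℝ))) * (K * (2 + η)) ≤
      (n * Real.exp (-(n : ℝ))) * F' ^ 2 := mul_le_mul_of_nonneg_left hF'2 (by positivity)
  have h8 : (K * n * Real.exp (-(n : ℝ))) * (2 + η) ≤
      (volume (posSet n C)).toReal * (2 + η) := by
    calc _ = (n * Real.exp (-(n : ℝ))) * (K * (2 + η)) := by ring
      _ ≤ _ := h7
      _ ≤ _ := h6
  exact le_of_mul_le_mul_right h8 (by linarith)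

/-- from the volume of the positivity sets to the agreement -/
theorem gap_of_vol {n : ℕ} (hn : 1 ≤ n) (v : ℝ)
    (hv : ∀ C : (Fin n → ℝ) → ℝ, IsCopula n C → v ≤ (volume (posSet n C)).toReal) :
    v - 1 / n.factorial ≤ 1 - (maxAgreement n).toReal := by
  have hle1 : ∀ C : (Fin n → ℝ) → ℝ, (volume (posSet n C)).toReal ≤ 1 := by
    intro C
    have := ENNReal.toReal_mono (by rw [volume_cube]; simp) (measure_mono (μ := volume)
      (posSet_subset C))
    rwa [volume_cube, ENNReal.toReal_one] at this
  have hfac : (0 : ℝ) ≤ 1 / (n.factorial : ℝ) := by positivity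
  have h0 : 0 ≤ 1 - v := by
    have := hv _ (isCopula_latin hn)
    linarith [hle1 (latin n)]
  rcases le_or_gt v 0 with hv0 | hv0
  · have h1 : (maxAgreement n).toReal ≤ 1 := by
      have := ENNReal.toReal_mono (by simp) (maxAgreement_le_one (n := n))
      simpa using this
    linarith
  have h1 : maxAgreement n ≤ ENNReal.ofReal (1 - v + 1 / n.factorial) := by
    unfold maxAgreement
    apply sSup_le
    rintro m ⟨A, hA, -, ⟨C, hC, hAC⟩, rfl⟩
    set S : Set (Fin n → ℝ) := (fun x => (fun _ => 1) - x) ⁻¹' simplex n 1 with hS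
    have hSvol : volume S ≤ ENNReal.ofReal (1 / n.factorial) := by
      have h1 : volume S = volume (simplex n 1) := by
        rw [hS]
        exact (Measure.measurePreserving_sub_left volume
          (fun _ : Fin n => (1 : ℝ))).measure_preimage
          (measurableSet_simplex n 1).nullMeasurableSet
      rw [h1]
      have := volume_simplex n 1 zero_le_one
      simpa using this
    have hsub : A ⊆ (cube n \ posSet n C) ∪ S := by
      intro x hx
      by_cases hpos : 0 < C x
      · right
        have h1 := hAC x hx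
        rw [h1] at hpos
        unfold lowerFrechet at hpos
        have h2 : 0 < ∑ k, x k - n + 1 := by
          by_contra hc
          push Not at hc
          rw [max_eq_right hc] at hpos
          exact lt_irrefl _ hpos
        refine ⟨fun k => ?_, ?_⟩
        · have := (hA hx k).2
          simpa using this
        · simp only [Pi.sub_apply, sum_sub_distrib]
          simp
          linarith
      · left
        exact ⟨hA hx, fun h => hpos h.2⟩
    have h1 : volume (cube n \ posSet n C) ≤ ENNReal.ofReal (1 - v) := by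
      rw [measure_sdiff (posSet_subset C) (measurableSet_posSet hC).nullMeasurableSet
        (volume_posSet_ne_top C), volume_cube, ENNReal.ofReal_sub _ hv0.le,
        ENNReal.ofReal_one]
      apply tsub_le_tsub_left
      rw [← ENNReal.ofReal_toReal (volume_posSet_ne_top C)]
      exact ENNReal.ofReal_le_ofReal (hv C hC)
    calc volume A ≤ volume ((cube n \ posSet n C) ∪ S) := measure_mono hsub
      _ ≤ volume (cube n \ posSet n C) + volume S := measure_union_le _ _
      _ ≤ ENNReal.ofReal (1 - v) + ENNReal.ofReal (1 / n.factorial) := add_le_add h1 hSvol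
      _ = _ := by rw [← ENNReal.ofReal_add h0 hfac]
  have h2 := ENNReal.toReal_mono ENNReal.ofReal_ne_top h1
  rw [ENNReal.toReal_ofReal (by linarith)] at h2
  linarith

/-- **the lower half** -/
theorem lowerHalf : Pool.Agent.H54Sharp.LowerHalf := by
  intro K hK
  set K' : ℝ := (K + Real.exp (1 + Real.eulerMascheroniConstant) / 2) / 2 with hK'
  have h1 : K' < Real.exp (1 + Real.eulerMascheroniConstant) / 2 := by rw [hK']; linarith
  have h2 : K < K' := by rw [hK']; linarith
  have h3 := vol_lower K' h1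
  have h4 : Tendsto (fun n : ℕ => Real.exp 1 ^ n / (n.factorial : ℝ)) atTop (𝓝 0) :=
    FloorSemiring.tendsto_pow_div_factorial_atTop (Real.exp 1)
  have h5 := h4.eventually (gt_mem_nhds (show (0 : ℝ) < K' - K by linarith))
  filter_upwards [h3, h5, eventually_ge_atTop 1] with n g3 g5 hn
  have g6 := gap_of_vol hn _ g3
  have hn1 : (1 : ℝ) ≤ n := by exact_mod_cast hn
  have g7 : Real.exp 1 ^ n = Real.exp (n : ℝ) := by
    rw [← Real.exp_nat_mul]; simp
  rw [g7] at g5
  have g8 : 1 / (n.factorial : ℝ) ≤ (K' - K) * n * Real.exp (-(n : ℝ)) := by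
    have e0 : Real.exp (n : ℝ) * Real.exp (-(n : ℝ)) = 1 := by
      rw [← Real.exp_add]; simp
    have e1 : 1 / (n.factorial : ℝ) =
        (Real.exp (n : ℝ) / n.factorial) * Real.exp (-(n : ℝ)) := by
      rw [div_mul_eq_mul_div, e0]
    rw [e1]
    apply mul_le_mul_of_nonneg_right _ (Real.exp_pos _).le
    have e2 : (K' - K) * 1 ≤ (K' - K) * n := mul_le_mul_of_nonneg_left hn1 (by linarith)
    linarith
  have g9 : K' * n * Real.exp (-(n : ℝ)) = K * n * Real.exp (-(n : ℝ)) +
      (K' - K) * n * Real.exp (-(n : ℝ)) := by ring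
  linarith

end Pool.Agent.Helper72.SH
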