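import Pool.Agent.Helper24.Sharp.Defs

/-!
# The terms of the cross sum (row L2 of the sharp asymptotics of `1 - s_n`)
-/

set_option autoImplicit false

namespace Pool.Agent.Helper72.SH

open Finset Pool.Agent.Helper24.Sharp

variable {n N : ℕ}

lemma npos_of_fin (c : Fin N) : (0 : ℝ) < N := by
  have h := c.2
  have : 0 < N := by omega
  exact_mod_cast this

lemma sx_pos (c : Fin N) : 0 < sx N c := by
  unfold sx
  have h1 : ((c : ℕ) : ℝ) < N := by exact_mod_cast c.2
  exact div_pos (by linarith) (npos_of_fin c)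

lemma sx_le_one (c : Fin N) : sx N c ≤ 1 := by
  unfold sx
  rw [div_le_one (npos_of_fin c)]
  have : (0 : ℝ) ≤ (c : ℕ) := by positivity
  linarith

lemma sx_inj {a b : Fin N} (h : sx N a = sx N b) : a = b := by
  unfold sx at h
  have hN := npos_of_fin a
  rw [div_left_inj' hN.ne'] at h
  have h2 : ((a : ℕ) : ℝ) = (b : ℕ) := by linarith
  exact Fin.ext (by exact_mod_cast h2)

/-- the logarithmic distance of two cells -/
noncomputable def dl (p q : Fin n → Fin N) : ℝ :=
  ∑ k, |Real.log (sx N (p k)) - Real.log (sx N (q k))|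

/-- the sum of the inverses of the truncated minima -/
noncomputable def mm (ε : ℝ) (p q : Fin n → Fin N) : ℝ :=
  ∑ k, 1 / max (min (sx N (p k)) (sx N (q k))) ε

/-- the part of the equal coordinates -/
noncomputable def tie (ε : ℝ) (p q : Fin n → Fin N) : ℝ :=
  ∑ k, if p k = q k then 1 / max (sx N (p k)) ε else 0

lemma dl_nonneg (p q : Fin n → Fin N) : 0 ≤ dl p q :=
  Finset.sum_nonneg fun _ _ => abs_nonneg _

lemma dl_comm (p q : Fin n → Fin N) : dl p q = dl q p := by
  unfold dl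
  exact Finset.sum_congr rfl fun k _ => abs_sub_comm _ _

lemma mm_comm (ε : ℝ) (p q : Fin n → Fin N) : mm ε p q = mm ε q p := by
  unfold mm
  exact Finset.sum_congr rfl fun k _ => by rw [min_comm]

lemma min_exp (x y : ℝ) (hx : 0 < x) (hy : 0 < y) :
    min x y = Real.exp ((Real.log x + Real.log y - |Real.log x - Real.log y|) / 2) := by
  rcases le_total x y with h | h
  · have h1 : Real.log x ≤ Real.log y := Real.log_le_log hx h
    rw [min_eq_left h, abs_of_nonpos (by linarith)]
    have : (Real.log x + Real.log y - -(Real.log x - Real.log y)) / 2 = Real.log x := by ring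
    rw [this, Real.exp_log hx]
  · have h1 : Real.log y ≤ Real.log x := Real.log_le_log hy h
    rw [min_eq_right h, abs_of_nonneg (by linarith)]
    have : (Real.log x + Real.log y - (Real.log x - Real.log y)) / 2 = Real.log y := by ring
    rw [this, Real.exp_log hy]

lemma VV_pos (p : Fin n → Fin N) : 0 < VV p := by
  unfold VV
  exact Finset.prod_pos fun k _ => sx_pos _

lemma sqrt_VV (p : Fin n → Fin N) :
    Real.sqrt (VV p) = Real.exp ((∑ k, Real.log (sx N (p k))) / 2) := by
  rw [Real.exp_half, Real.exp_sum]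
  unfold VV
  congr 1
  exact Finset.prod_congr rfl fun k _ => (Real.exp_log (sx_pos _)).symm

lemma prod_min (p q : Fin n → Fin N) :
    ∏ k, min (sx N (p k)) (sx N (q k)) =
      Real.sqrt (VV p) * Real.sqrt (VV q) * Real.exp (-(dl p q / 2)) := by
  rw [sqrt_VV, sqrt_VV, ← Real.exp_add, ← Real.exp_add]
  have h : ∀ k, min (sx N (p k)) (sx N (q k)) = Real.exp ((Real.log (sx N (p k)) +
      Real.log (sx N (q k)) - |Real.log (sx N (p k)) - Real.log (sx N (q k))|) / 2) :=
    fun k => min_exp _ _ (sx_pos _) (sx_pos _)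
  rw [Finset.prod_congr rfl fun k _ => h k, ← Real.exp_sum]
  congr 1
  rw [← Finset.sum_div, Finset.sum_sub_distrib, Finset.sum_add_distrib]
  unfold dl
  ring

lemma one_le_inv_max (ε : ℝ) (hε : 0 < ε) (hε1 : ε ≤ 1) (x : ℝ) (hx : x ≤ 1) :
    1 ≤ 1 / max x ε := by
  have h1 : 0 < max x ε := lt_max_of_lt_right hε
  rw [le_div_iff₀ h1, one_mul]
  exact max_le hx hε1

lemma inv_max_le (ε : ℝ) (hε : 0 < ε) (x : ℝ) : 1 / max x ε ≤ 1 / ε :=
  one_div_le_one_div_of_le hε (le_max_right _ _)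

lemma inv_max_nonneg (ε : ℝ) (hε : 0 < ε) (x : ℝ) : 0 ≤ 1 / max x ε := by
  have h1 : 0 < max x ε := lt_max_of_lt_right hε
  positivity

lemma n_le_aa (ε : ℝ) (hε : 0 < ε) (hε1 : ε ≤ 1) (p : Fin n → Fin N) : (n : ℝ) ≤ aa ε p := by
  unfold aa
  calc (n : ℝ) = ∑ _k : Fin n, (1 : ℝ) := by simp
    _ ≤ _ := Finset.sum_le_sum fun k _ => one_le_inv_max ε hε hε1 _ (sx_le_one _)

/-- the two parts and the ties -/
lemma al_add (ε : ℝ) (p q : Fin n → Fin N) : al ε p q + al ε q p = mm ε p q + tie ε p q := by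
  unfold al mm tie
  rw [← Finset.sum_add_distrib, ← Finset.sum_add_distrib]
  refine Finset.sum_congr rfl fun k _ => ?_
  rcases lt_trichotomy (sx N (p k)) (sx N (q k)) with h | h | h
  · have h3 : p k ≠ q k := fun h4 => by rw [h4] at h; exact lt_irrefl _ h
    rw [if_pos h.le, if_neg (not_le.mpr h), if_neg h3, min_eq_left h.le]
  · have h3 : p k = q k := sx_inj h
    rw [h3]
    simp
  · have h3 : p k ≠ q k := fun h4 => by rw [h4] at h; exact lt_irrefl _ h
    rw [if_neg (not_le.mpr h), if_pos h.le, if_neg h3, min_eq_right h.le]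
    ring

lemma tie_nonneg (ε : ℝ) (hε : 0 < ε) (p q : Fin n → Fin N) : 0 ≤ tie ε p q := by
  unfold tie
  refine Finset.sum_nonneg fun k _ => ?_
  split_ifs
  · exact inv_max_nonneg ε hε _
  · exact le_refl _

lemma tie_le_mm (ε : ℝ) (hε : 0 < ε) (p q : Fin n → Fin N) : tie ε p q ≤ mm ε p q := by
  unfold tie mm
  refine Finset.sum_le_sum fun k _ => ?_
  split_ifs with h
  · rw [h, min_self]
  · exact inv_max_nonneg ε hε _

/-- the Lipschitz bound of `1 / max x ε` in the logarithm -/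
lemma lip (ε : ℝ) (hε : 0 < ε) (hε1 : ε ≤ 1) (x y : ℝ) (hx : 0 < x) (hy : 0 < y) (hx1 : x ≤ 1) :
    1 / max (min x y) ε ≤ 1 / max x ε + |Real.log x - Real.log y| / ε ^ 2 := by
  rcases le_total x y with h | h
  · rw [min_eq_left h]
    have : 0 ≤ |Real.log x - Real.log y| / ε ^ 2 := by positivity
    linarith
  · rw [min_eq_right h]
    have h1 : Real.log y ≤ Real.log x := Real.log_le_log hy h
    rw [abs_of_nonneg (by linarith)]
    set a := max x ε with ha
    set b := max y ε with hb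
    have ha0 : ε ≤ a := le_max_right _ _
    have hb0 : ε ≤ b := le_max_right _ _
    have hab : b ≤ a := max_le_max h le_rfl
    have hap : 0 < a := lt_of_lt_of_le hε ha0
    have hbp : 0 < b := lt_of_lt_of_le hε hb0
    have ha1 : a ≤ 1 := max_le hx1 hε1
    -- a - b ≤ log x - log y
    have h2 : a - b ≤ Real.log x - Real.log y := by
      rcases le_total x ε with h3 | h3
      · have h4 : a = ε := max_eq_right h3
        have h5 : b = ε := max_eq_right (le_trans h h3)
        rw [h4, h5]; linarith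
      · have h4 : a = x := max_eq_left h3
        have h5 : y ≤ b := le_max_left _ _
        have h6 : Real.log (y / x) ≤ y / x - 1 := Real.log_le_sub_one_of_pos (by positivity)
        rw [Real.log_div hy.ne' hx.ne'] at h6
        have h7 : (x - y) ≤ (x - y) / x := by
          rw [le_div_iff₀ hx]
          nlinarith
        have h8 : (x - y) / x = 1 - y / x := by
          field_simp
        rw [h4]
        linarith
    have h3 : 1 / b - 1 / a = (a - b) / (a * b) := by
      field_simp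
    have h4 : (a - b) / (a * b) ≤ (a - b) / ε ^ 2 := by
      apply div_le_div_of_nonneg_left (by linarith) (by positivity)
      nlinarith
    have h5 : (a - b) / ε ^ 2 ≤ (Real.log x - Real.log y) / ε ^ 2 :=
      div_le_div_of_nonneg_right h2 (by positivity)
    linarith

lemma mm_le (ε : ℝ) (hε : 0 < ε) (hε1 : ε ≤ 1) (hn : 1 ≤ n) (p q : Fin n → Fin N) :
    mm ε p q ≤ aa ε p * (1 + dl p q / (ε ^ 2 * n)) := by
  have h1 : mm ε p q ≤ aa ε p + dl p q / ε ^ 2 := by
    unfold mm aa dl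
    rw [Finset.sum_div, ← Finset.sum_add_distrib]
    exact Finset.sum_le_sum fun k _ =>
      lip ε hε hε1 _ _ (sx_pos _) (sx_pos _) (sx_le_one _)
  have hn0 : (0 : ℝ) < n := by exact_mod_cast hn
  have h2 := n_le_aa ε hε hε1 p
  have h3 := dl_nonneg p q
  have h4 : dl p q / ε ^ 2 ≤ aa ε p * (dl p q / (ε ^ 2 * n)) := by
    have h5 : dl p q / ε ^ 2 = n * (dl p q / (ε ^ 2 * n)) := by
      field_simp
    rw [h5]
    exact mul_le_mul_of_nonneg_right h2 (by positivity)
  linarith [mul_add (aa ε p) 1 (dl p q / (ε ^ 2 * n))]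

/-- the bound of one term -/
lemma term_le (ε : ℝ) (hε : 0 < ε) (hε1 : ε ≤ 1) (hn : 1 ≤ n) (hth : 0 < 1 - 4 / (ε ^ 2 * n))
    (p q : Fin n → Fin N) :
    (∏ k, min (sx N (p k)) (sx N (q k))) * al ε p q * al ε q p /
      (Real.sqrt (VV p * aa ε p) * Real.sqrt (VV q * aa ε q)) ≤
    1 / 4 * (aa ε p * Real.exp (-((1 - 4 / (ε ^ 2 * n)) * dl p q / 2))) + 3 / 4 * tie ε p q := by
  have hn0 : (0 : ℝ) < n := by exact_mod_cast hn
  have hap : 0 < aa ε p := lt_of_lt_of_le hn0 (n_le_aa ε hε hε1 p)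
  have haq : 0 < aa ε q := lt_of_lt_of_le hn0 (n_le_aa ε hε hε1 q)
  have hVp := VV_pos p
  have hVq := VV_pos q
  rw [prod_min, Real.sqrt_mul hVp.le, Real.sqrt_mul hVq.le]
  set vp := Real.sqrt (VV p) with hvp
  set vq := Real.sqrt (VV q) with hvq
  have hvp0 : 0 < vp := Real.sqrt_pos.mpr hVp
  have hvq0 : 0 < vq := Real.sqrt_pos.mpr hVq
  set a := Real.sqrt (aa ε p) with ha
  set b := Real.sqrt (aa ε q) with hb
  have ha0 : 0 < a := Real.sqrt_pos.mpr hap
  have hb0 : 0 < b := Real.sqrt_pos.mpr haq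
  have ha2 : a ^ 2 = aa ε p := Real.sq_sqrt hap.le
  have hb2 : b ^ 2 = aa ε q := Real.sq_sqrt haq.le
  set D := dl p q with hD
  have hD0 : 0 ≤ D := dl_nonneg p q
  set z := D / (ε ^ 2 * n) with hz
  have hz0 : 0 ≤ z := by positivity
  set m := mm ε p q with hm
  set t := tie ε p q with ht
  have ht0 : 0 ≤ t := tie_nonneg ε hε p q
  have htm : t ≤ m := tie_le_mm ε hε p q
  have hm0 : 0 ≤ m := le_trans ht0 htm
  have hmp : m ≤ a ^ 2 * (1 + z) := by rw [ha2]; exact mm_le ε hε hε1 hn p q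
  have hmq : m ≤ b ^ 2 * (1 + z) := by
    rw [hb2, hm, mm_comm, hz, hD, dl_comm]; exact mm_le ε hε hε1 hn q p
  have hab : m ≤ a * b * (1 + z) := by
    have h1 : m ^ 2 ≤ (a * b * (1 + z)) ^ 2 := by
      calc m ^ 2 = m * m := by ring
        _ ≤ (a ^ 2 * (1 + z)) * (b ^ 2 * (1 + z)) :=
            mul_le_mul hmp hmq hm0 (by positivity)
        _ = _ := by ring
    exact le_of_sq_le_sq h1 (by positivity)
  have hsum := al_add ε p q
  have hprod : al ε p q * al ε q p ≤ 1 / 4 * (m ^ 2 + 3 * m * t) := by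
    have h1 : al ε p q * al ε q p ≤ 1 / 4 * (al ε p q + al ε q p) ^ 2 := by
      nlinarith [sq_nonneg (al ε p q - al ε q p)]
    rw [hsum] at h1
    have h2 : t * t ≤ m * t := mul_le_mul_of_nonneg_right htm ht0
    nlinarith
  have hE : vp * vq * Real.exp (-(D / 2)) * al ε p q * al ε q p / (vp * a * (vq * b)) =
      Real.exp (-(D / 2)) * (al ε p q * al ε q p) / (a * b) := by
    field_simp
  rw [hE]
  have h5 : Real.exp (-(D / 2)) * (al ε p q * al ε q p) / (a * b) ≤
      Real.exp (-(D / 2)) * (1 / 4 * (m ^ 2 + 3 * m * t)) / (a * b) := by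
    apply div_le_div_of_nonneg_right _ (by positivity)
    exact mul_le_mul_of_nonneg_left hprod (Real.exp_pos _).le
  have h6 : m ^ 2 / (a * b) ≤ a ^ 2 * (1 + z) ^ 2 := by
    rw [div_le_iff₀ (by positivity)]
    calc m ^ 2 = m * m := by ring
      _ ≤ (a ^ 2 * (1 + z)) * (a * b * (1 + z)) := mul_le_mul hmp hab hm0 (by positivity)
      _ = _ := by ring
  have h7 : m / (a * b) ≤ 1 + z := by
    rw [div_le_iff₀ (by positivity)]
    linarith
  have h8 : 1 + z ≤ Real.exp z := by linarith [Real.add_one_le_exp z]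
  have h9 : (1 + z) ^ 2 ≤ Real.exp (2 * z) := by
    rw [two_mul, Real.exp_add, ← sq]
    exact pow_le_pow_left₀ (by positivity) h8 2
  have h10 : Real.exp (-(D / 2)) * Real.exp (2 * z) =
      Real.exp (-((1 - 4 / (ε ^ 2 * n)) * D / 2)) := by
    rw [← Real.exp_add]
    congr 1
    rw [hz]
    field_simp
    ring
  have h11 : Real.exp (-(D / 2)) * (1 + z) ≤ 1 := by
    calc Real.exp (-(D / 2)) * (1 + z) ≤ Real.exp (-(D / 2)) * Real.exp z :=
          mul_le_mul_of_nonneg_left h8 (Real.exp_pos _).le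
      _ ≤ Real.exp (-(D / 2)) * Real.exp (2 * z) :=
          mul_le_mul_of_nonneg_left (Real.exp_le_exp.mpr (by linarith)) (Real.exp_pos _).le
      _ = Real.exp (-((1 - 4 / (ε ^ 2 * n)) * D / 2)) := h10
      _ ≤ 1 := by
          rw [Real.exp_le_one_iff]
          have : 0 ≤ (1 - 4 / (ε ^ 2 * n)) * D / 2 := by positivity
          linarith
  calc Real.exp (-(D / 2)) * (al ε p q * al ε q p) / (a * b)
      ≤ Real.exp (-(D / 2)) * (1 / 4 * (m ^ 2 + 3 * m * t)) / (a * b) := h5
    _ = 1 / 4 * (Real.exp (-(D / 2)) * (m ^ 2 / (a * b))) +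
        3 / 4 * (Real.exp (-(D / 2)) * (m / (a * b)) * t) := by
        field_simp
    _ ≤ 1 / 4 * (Real.exp (-(D / 2)) * (a ^ 2 * Real.exp (2 * z))) +
        3 / 4 * (Real.exp (-(D / 2)) * (1 + z) * t) := by
        gcongr
        exact le_trans h6 (mul_le_mul_of_nonneg_left h9 (by positivity))
    _ ≤ 1 / 4 * (a ^ 2 * Real.exp (-((1 - 4 / (ε ^ 2 * n)) * D / 2))) + 3 / 4 * (1 * t) := by
        have e1 : Real.exp (-(D / 2)) * (a ^ 2 * Real.exp (2 * z)) =
            a ^ 2 * Real.exp (-((1 - 4 / (ε ^ 2 * n)) * D / 2)) := by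
          rw [← h10]; ring
        rw [e1]
        have := mul_le_mul_of_nonneg_right h11 ht0
        linarith
    _ = _ := by rw [ha2]; ring

end Pool.Agent.Helper72.SH
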